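import Pool.Agent.Helper99.AA.Basic

set_option autoImplicit false
set_option maxHeartbeats 800000

/-!
Project AA, row FA: factorization of the Dirichlet polynomial over the products of two primes.
-/

open Finset MeasureTheory
open scoped BigOperators Nat

namespace Pool.Agent.Helper8.AA

open Pool.Agent.Helper40.MR Pool.Agent.Helper99.AA

theorem mem_IocN_real {a b : ℝ} (ha : 0 ≤ a) {n : ℕ} (hn : n ∈ IocN a b) : a < n ∧ (n : ℝ) ≤ b := by
  unfold IocN at hn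
  rw [Finset.mem_Ioc] at hn
  have h1 : a < n := (Nat.floor_lt ha).1 hn.1
  refine ⟨h1, ?_⟩
  by_cases hb : 0 ≤ b
  · exact (Nat.le_floor_iff hb).1 hn.2
  · rw [Nat.floor_of_nonpos (not_le.1 hb).le, Nat.le_zero] at hn
    rw [hn.2] at h1
    simp only [Nat.cast_zero] at h1
    exact absurd h1 (not_lt.2 ha)

theorem mem_PrI_real {a b : ℝ} (ha : 0 ≤ a) {p : ℕ} (hp : p ∈ PrI a b) :
    p.Prime ∧ a < p ∧ (p : ℝ) ≤ b := by
  unfold PrI at hp
  rw [Finset.mem_filter] at hp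
  exact ⟨hp.2, mem_IocN_real ha hp.1⟩

theorem mem_Pa {η M : ℝ} (hη : 0 < η) (hM : 2 ≤ M) {p : ℕ} (hp : p ∈ Pa η M) :
    p.Prime ∧ M * (1 + η) < p ∧ (p : ℝ) ≤ M * (1 + 2 * η) :=
  mem_PrI_real (by positivity) hp

theorem mem_Qa {η M : ℝ} (hη' : η ≤ 1 / 10) (hM : 2 ≤ M) {p : ℕ} (hp : p ∈ Qa η M) :
    p.Prime ∧ M * (1 - 3 * η) < p ∧ (p : ℝ) ≤ M * (1 + η) :=
  mem_PrI_real (mul_nonneg (by linarith) (by linarith)) hp

/-- FA -/
theorem st_FA : ST_FA := by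
  classical
  intro η M t hη hη' hM
  have hmaps : ∀ r ∈ Pa η M ×ˢ Qa η M, r.1 * r.2 ∈ Icc 1 ⌊4 * M ^ 2⌋₊ := by
    intro r hr
    rw [Finset.mem_product] at hr
    obtain ⟨hp, hp1, hp2⟩ := mem_Pa hη hM hr.1
    obtain ⟨hq, hq1, hq2⟩ := mem_Qa hη' hM hr.2
    rw [Finset.mem_Icc]
    refine ⟨Nat.mul_pos hp.pos hq.pos, ?_⟩
    apply Nat.le_floor
    push_cast
    have h1 : (r.1 : ℝ) ≤ 2 * M := by nlinarith
    have h2 : (r.2 : ℝ) ≤ 2 * M := by nlinarith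
    calc (r.1 : ℝ) * r.2 ≤ (2 * M) * (2 * M) :=
          mul_le_mul h1 h2 (Nat.cast_nonneg _) (by linarith)
      _ = 4 * M ^ 2 := by ring
  unfold DP
  rw [Finset.sum_mul_sum, ← Finset.sum_product', ← Finset.sum_fiberwise_of_maps_to hmaps]
  apply Finset.sum_congr rfl
  intro n _
  have h1 : ∀ r ∈ (Pa η M ×ˢ Qa η M).filter (fun r : ℕ × ℕ => r.1 * r.2 = n),
      (1 : ℂ) / r.1 * nit r.1 t * (1 / r.2 * nit r.2 t) = 1 / n * nit n t := by
    intro r hr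
    rw [Finset.mem_filter, Finset.mem_product] at hr
    obtain ⟨hp, -, -⟩ := mem_Pa hη hM hr.1.1
    obtain ⟨hq, -, -⟩ := mem_Qa hη' hM hr.1.2
    rw [← hr.2, nit_mul hp.ne_zero hq.ne_zero, Nat.cast_mul]
    have h3 : (r.1 : ℂ) ≠ 0 := by exact_mod_cast hp.ne_zero
    have h4 : (r.2 : ℂ) ≠ 0 := by exact_mod_cast hq.ne_zero
    field_simp
  rw [Finset.sum_congr rfl h1, Finset.sum_const, nsmul_eq_mul]
  unfold co
  ring

end Pool.Agent.Helper8.AA
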