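import Pool.Agent.Helper8.AA.FA

set_option autoImplicit false
set_option maxHeartbeats 800000

/-!
Project AA, row V2: the low range of the variance.
-/

open Finset MeasureTheory
open scoped BigOperators Nat

namespace Pool.Agent.Helper8.AA

open Pool.Agent.Helper40.MR Pool.Agent.Helper99.AA

theorem sum_inv_Qa {η M : ℝ} (hη : 0 < η) (hη' : η ≤ 1 / 10) (hM : 4 ≤ M) :
    ∑ q ∈ Qa η M, 1 / (q : ℝ) ≤ 5 / Real.log M := by
  have hM0 : 0 < M := by linarith
  have hlog : 0 < Real.log M := Real.log_pos (by linarith)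
  have hsq : Real.log M / 2 ≤ Real.log (M * (7 / 10)) := by
    have h1 : Real.log M / 2 = Real.log (Real.sqrt M) := (Real.log_sqrt hM0.le).symm
    rw [h1]
    apply Real.log_le_log (Real.sqrt_pos.2 hM0)
    rw [Real.sqrt_le_left (by positivity)]
    nlinarith
  have h1 : ∀ q ∈ Qa η M, 1 / (q : ℝ) ≤ (10 / (7 * M) * (2 / Real.log M)) * Real.log q := by
    intro q hq
    obtain ⟨hp, h1, h2⟩ := mem_Qa hη' (by linarith) hq
    have h3 : M * (7 / 10) < q := by nlinarith
    have h4 : Real.log (M * (7 / 10)) ≤ Real.log q := Real.log_le_log (by positivity) h3.le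
    have h5 : 1 / (q : ℝ) ≤ 10 / (7 * M) := by
      rw [div_le_div_iff₀ (by linarith [mul_pos hM0 (by norm_num : (0 : ℝ) < 7 / 10)]) (by positivity)]
      linarith
    have h6 : 1 ≤ 2 / Real.log M * Real.log q := by
      rw [div_mul_eq_mul_div, le_div_iff₀ hlog]
      linarith
    calc 1 / (q : ℝ) ≤ 10 / (7 * M) * 1 := by rw [mul_one]; exact h5
      _ ≤ 10 / (7 * M) * (2 / Real.log M * Real.log q) :=
          mul_le_mul_of_nonneg_left h6 (by positivity)
      _ = (10 / (7 * M) * (2 / Real.log M)) * Real.log q := by ring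
  have h2 : ∑ q ∈ Qa η M, Real.log q ≤ Real.log 4 * (M * (11 / 10)) := by
    refine le_trans ?_ (Chebyshev.theta_le_log4_mul_x (by positivity))
    unfold Chebyshev.theta
    apply Finset.sum_le_sum_of_subset_of_nonneg
    · intro q hq
      obtain ⟨hp, h1, h2⟩ := mem_Qa hη' (by linarith) hq
      rw [Finset.mem_filter, Finset.mem_Ioc]
      refine ⟨⟨hp.pos, Nat.le_floor ?_⟩, hp⟩
      nlinarith
    · intro q hq _
      rw [Finset.mem_filter] at hq
      exact Real.log_nonneg (by exact_mod_cast hq.2.one_lt.le)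
  have hlog4 : Real.log 4 ≤ 14 / 10 := by
    have h3 : Real.log 4 = 2 * Real.log 2 := by
      rw [show (4 : ℝ) = 2 ^ 2 by norm_num, Real.log_pow]
      norm_num
    rw [h3]
    linarith [Real.log_two_lt_d9]
  calc ∑ q ∈ Qa η M, 1 / (q : ℝ)
      ≤ ∑ q ∈ Qa η M, (10 / (7 * M) * (2 / Real.log M)) * Real.log q := Finset.sum_le_sum h1
    _ = (10 / (7 * M) * (2 / Real.log M)) * ∑ q ∈ Qa η M, Real.log q := by
        rw [← Finset.mul_sum]
    _ ≤ (10 / (7 * M) * (2 / Real.log M)) * (Real.log 4 * (M * (11 / 10))) :=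
        mul_le_mul_of_nonneg_left h2 (by positivity)
    _ ≤ (10 / (7 * M) * (2 / Real.log M)) * (14 / 10 * (M * (11 / 10))) := by
        apply mul_le_mul_of_nonneg_left _ (by positivity)
        exact mul_le_mul_of_nonneg_right hlog4 (by positivity)
    _ = (44 / 10) / Real.log M := by
        field_simp
        norm_num
    _ ≤ 5 / Real.log M := by
        apply div_le_div_of_nonneg_right _ hlog.le
        norm_num

theorem norm_DP_one_le (s : Finset ℕ) (t : ℝ) : ‖DP s (fun _ => 1) t‖ ≤ ∑ q ∈ s, 1 / (q : ℝ) := by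
  unfold DP
  refine (norm_sum_le _ _).trans (Finset.sum_le_sum fun q _ => ?_)
  rw [norm_mul, norm_nit, mul_one, norm_div, norm_one, Complex.norm_natCast]

theorem DP_continuous (s : Finset ℕ) (c : ℕ → ℂ) : Continuous (DP s c) := by
  unfold DP
  exact continuous_finsetSum _ fun n _ => continuous_const.mul (nit_continuous n)

/-- V2 -/
theorem st_V2 (hFA : ST_FA) (hHM2 : ST_HM2) : ST_V2 := by
  obtain ⟨c, hc, C, hC, h⟩ := hHM2 1 le_rfl
  refine ⟨50 * C, by positivity, ?_⟩
  intro η T hη hη' hT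
  have hT0 : 0 < T := by linarith
  have hev : ∀ᶠ Y : ℝ in Filter.atTop, Real.log Y ^ 2 ≤ 1 / (2 * T) * Y ^ c := by
    have h1 := (isLittleO_log_rpow_rpow_atTop 2 hc).def (show 0 < 1 / (2 * T) by positivity)
    filter_upwards [h1, Filter.eventually_ge_atTop (1 : ℝ)] with Y hY hY1
    have h2 : ‖Real.log Y ^ (2 : ℝ)‖ = Real.log Y ^ 2 := by
      rw [Real.rpow_two, Real.norm_of_nonneg (sq_nonneg _)]
    have h3 : ‖Y ^ c‖ = Y ^ c := Real.norm_of_nonneg (Real.rpow_nonneg (by linarith) _)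
    rw [h2, h3] at hY
    exact hY
  obtain ⟨Y₀, hY₀⟩ := Filter.eventually_atTop.1 hev
  refine ⟨max Y₀ (max T 4), ?_⟩
  intro M hM
  have hM1 : Y₀ ≤ M := (le_max_left _ _).trans hM
  have hM2 : T ≤ M := (le_max_left _ _).trans ((le_max_right _ _).trans hM)
  have hM3 : 4 ≤ M := (le_max_right _ _).trans ((le_max_right _ _).trans hM)
  have hM0 : 0 < M := by linarith
  set Y : ℝ := M * (1 + η) with hY
  have hMY : M ≤ Y := by
    rw [hY]
    nlinarith
  have hY1 : 1 < Y := by linarith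
  have hlM : 0 < Real.log M := Real.log_pos (by linarith)
  have hlY : Real.log M ≤ Real.log Y := Real.log_le_log hM0 hMY
  have hU : {t : ℝ | |t| ≤ T} = Set.Icc (-T) T := by
    ext t
    rw [Set.mem_ofPred_eq, Set.mem_Icc, abs_le]
  have hvol : (volume {t : ℝ | |t| ≤ T}).toReal = 2 * T := by
    rw [hU, Real.volume_Icc, ENNReal.toReal_ofReal (by linarith)]
    ring
  have hP := h Y (Pa η M) (fun _ => 1) {t : ℝ | |t| ≤ T} (by linarith) (by
      intro p hp
      obtain ⟨h1, h2, h3⟩ := mem_Pa hη (by linarith) hp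
      refine ⟨h1, h2, h3.trans ?_⟩
      have h4 : (2 : ℝ) ≤ Real.exp 1 := by
        have := Real.add_one_le_exp (1 : ℝ)
        linarith
      calc M * (1 + 2 * η) ≤ 2 * Y := by
            rw [hY]
            nlinarith
        _ ≤ Real.exp 1 * Y := mul_le_mul_of_nonneg_right h4 (by linarith))
    (fun _ => by simp) (by rw [hU]; exact measurableSet_Icc) (by
      rw [hU, Real.rpow_one]
      exact Set.Icc_subset_Icc (by linarith) (by linarith))
  rw [hvol] at hP
  have h5 : 2 * T * Y ^ (-c) ≤ 1 / Real.log Y ^ 2 := by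
    have h6 := hY₀ Y (hM1.trans hMY)
    have h7 : 0 < Y ^ c := Real.rpow_pos_of_pos (by linarith) _
    rw [Real.rpow_neg (by linarith), le_div_iff₀ (by
      have : 0 < Real.log Y := lt_of_lt_of_le hlM hlY
      positivity), mul_assoc, inv_mul_eq_div]
    calc 2 * T * (Real.log Y ^ 2 / Y ^ c) ≤ 2 * T * ((1 / (2 * T) * Y ^ c) / Y ^ c) := by
          apply mul_le_mul_of_nonneg_left _ (by positivity)
          exact div_le_div_of_nonneg_right h6 h7.le
      _ = 1 := by field_simp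
  have hP2 : ∫ t in {t : ℝ | |t| ≤ T}, ‖DP (Pa η M) (fun _ => 1) t‖ ^ 2 ≤
      2 * C / Real.log M ^ 2 := by
    calc ∫ t in {t : ℝ | |t| ≤ T}, ‖DP (Pa η M) (fun _ => 1) t‖ ^ 2
        ≤ C / Real.log Y ^ 2 + C * (2 * T) * Y ^ (-c) := hP
      _ ≤ C / Real.log Y ^ 2 + C * (1 / Real.log Y ^ 2) := by
          rw [mul_assoc C]
          have := mul_le_mul_of_nonneg_left h5 hC.le
          linarith
      _ = 2 * C / Real.log Y ^ 2 := by ring
      _ ≤ 2 * C / Real.log M ^ 2 := by
          apply div_le_div_of_nonneg_left (by positivity) (by positivity)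
          exact pow_le_pow_left₀ hlM.le hlY 2
  have hQ : ∀ t : ℝ, ‖DP (Qa η M) (fun _ => 1) t‖ ≤ 5 / Real.log M := fun t =>
    (norm_DP_one_le _ t).trans (sum_inv_Qa hη hη' hM3)
  have hint : ∀ (s : Finset ℕ) (a : ℕ → ℂ), IntegrableOn (fun t => ‖DP s a t‖ ^ 2)
      {t : ℝ | |t| ≤ T} := by
    intro s a
    rw [hU]
    exact ((DP_continuous s a).norm.pow 2).continuousOn.integrableOn_Icc
  calc ∫ t in {t : ℝ | |t| ≤ T}, ‖DP (Icc 1 ⌊4 * M ^ 2⌋₊) (co η M) t‖ ^ 2
      ≤ ∫ t in {t : ℝ | |t| ≤ T}, (5 / Real.log M) ^ 2 * ‖DP (Pa η M) (fun _ => 1) t‖ ^ 2 := by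
        apply MeasureTheory.setIntegral_mono (hint _ _) ((hint _ _).const_mul _)
        intro t
        change ‖DP (Icc 1 ⌊4 * M ^ 2⌋₊) (co η M) t‖ ^ 2 ≤ _
        rw [hFA η M t hη hη' (by linarith), norm_mul, mul_pow, mul_comm]
        apply mul_le_mul_of_nonneg_right _ (sq_nonneg _)
        exact pow_le_pow_left₀ (norm_nonneg _) (hQ t) 2
    _ = (5 / Real.log M) ^ 2 * ∫ t in {t : ℝ | |t| ≤ T}, ‖DP (Pa η M) (fun _ => 1) t‖ ^ 2 :=
        MeasureTheory.integral_const_mul _ _
    _ ≤ (5 / Real.log M) ^ 2 * (2 * C / Real.log M ^ 2) :=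
        mul_le_mul_of_nonneg_left hP2 (sq_nonneg _)
    _ = 50 * C / Real.log M ^ 4 := by
        field_simp
        norm_num

end Pool.Agent.Helper8.AA
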